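import Pool.Agent.Y482.Br.Red

/-!
# A just infinite branch group with unsolvable conjugacy problem in all subgroups of finite index

In general the conjugacy problem is neither inherited by subgroups of finite index nor by finite
extensions.  Here the unsolvability does not disappear in any subgroup of finite index, and the
halting problem is many-one reducible to the conjugacy problem in each of them.
-/

set_option autoImplicit false

namespace Pool.Agent.Results.MP_9b3f3c_al.HereditarilyUnsolvable

/-- A spherically homogeneous rooted tree with vertex type `V`: levels, parent map, root, and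
degree sequence `deg`; every vertex of level `n` has exactly `deg n ≥ 2` children. -/
structure SphericalTree (V : Type) where
  /-- the level of a vertex -/
  lev : V → ℕ
  /-- the parent of a vertex; by convention the root is its own parent -/
  par : V → V
  /-- the root -/
  root : V
  /-- the number of children of the vertices of level `n` -/
  deg : ℕ → ℕ
  lev_eq_zero : ∀ v, lev v = 0 ↔ v = root
  par_root : par root = root
  lev_par : ∀ v, v ≠ root → lev (par v) + 1 = lev v
  two_le_deg : ∀ n, 2 ≤ deg n
  card_children : ∀ v, Nat.card {w : V // w ≠ root ∧ par w = v} = deg (lev v)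

/-- `G` is a branch group: it has a faithful action by automorphisms on some spherically
homogeneous rooted tree, transitive on every level, such that for every `n` the subgroup
generated by the rigid stabilizers of the vertices of level `n` has finite index. An element
lies in the rigid stabilizer of `v` when it fixes every vertex outside the subtree below `v`. -/
def IsBranchGroup (G : Type) [Group G] : Prop :=
  ∃ (V : Type) (T : SphericalTree V) (_ : MulAction G V),
    (∀ (g : G) (v : V), T.lev (g • v) = T.lev v ∧ T.par (g • v) = g • T.par v) ∧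
    (∀ g : G, (∀ v : V, g • v = v) → g = 1) ∧
    (∀ v w : V, T.lev v = T.lev w → ∃ g : G, g • v = w) ∧
    ∀ n : ℕ, (Subgroup.closure {g : G | ∃ v : V, T.lev v = n ∧
      ∀ w : V, (¬ ∃ k : ℕ, T.par^[k] w = v) → g • w = w}).FiniteIndex

/-- `G` is just infinite: it is infinite and its nontrivial normal subgroups have finite index. -/
def JustInfinite (G : Type) [Group G] : Prop :=
  Infinite G ∧ ∀ N : Subgroup G, N.Normal → N ≠ ⊥ → N.FiniteIndex

/-- The element of `G` represented by a word over `s` and its inverses; the letter `(i, true)`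
stands for `s i` and `(i, false)` for its inverse. -/
def wordValue {G : Type} [Group G] {r : ℕ} (s : Fin r → G) (w : List (Fin r × Bool)) : G :=
  (w.map fun p => if p.2 then s p.1 else (s p.1)⁻¹).prod

/-- The word problem with respect to the tuple `s` is decidable. -/
def WordProblemDecidable {G : Type} [Group G] {r : ℕ} (s : Fin r → G) : Prop :=
  ComputablePred fun w : List (Fin r × Bool) => wordValue s w = 1

/-- The conjugacy problem with respect to the tuple `s`: the set of pairs of words which represent
conjugate elements. -/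
def Conjugate {G : Type} [Group G] {r : ℕ} (s : Fin r → G)
    (p : List (Fin r × Bool) × List (Fin r × Bool)) : Prop :=
  IsConj (wordValue s p.1) (wordValue s p.2)

/-- The halting problem: the program `c` halts on the input `0`. -/
def Halts (c : Nat.Partrec.Code) : Prop := (c.eval 0).Dom

open Pool.Agent.Helper581.CP Equiv Pool.Agent.Y482.Br

/-- The tree of all words over the five letter alphabet. -/
def tree : SphericalTree W where
  lev := List.length
  par := List.dropLast
  root := []
  deg := fun _ => 5
  lev_eq_zero := fun v => List.length_eq_zero_iff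
  par_root := rfl
  lev_par := fun v hv => by
    have := List.length_pos_iff.2 hv
    rw [List.length_dropLast]
    omega
  two_le_deg := fun _ => by norm_num
  card_children := fun v => by
    have e : {w : W // w ≠ [] ∧ w.dropLast = v} ≃ Fin 5 :=
      { toFun := fun w => w.1.getLast w.2.1
        invFun := fun x => ⟨v ++ [x], by simp, by simp⟩
        left_inv := fun w => by
          obtain ⟨w, hw, rfl⟩ := w
          ext1
          exact List.dropLast_append_getLast hw
        right_inv := fun x => by simp }
    rw [Nat.card_congr e]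
    simp

theorem isBranch : IsBranchGroup G := by
  refine ⟨W, tree, inferInstance, ?_, ?_, ?_, ?_⟩
  · intro g v
    exact ⟨Del_length v g.2, Del_dropLast v g.2⟩
  · intro g h
    ext v : 2
    exact h v
  · intro v w h
    obtain ⟨g, hg, hgv⟩ := trans_Del v 0 w h
    exact ⟨⟨g, hg⟩, hgv⟩
  · intro n
    exact rist_finiteIndex n

theorem eG_surj (g : G) : ∃ l, eG l = g := by
  obtain ⟨g, hg⟩ := g
  suffices h : ∃ l, ev 0 l = g by
    obtain ⟨l, hl⟩ := h
    exact ⟨l, Subtype.ext hl⟩
  change g ∈ Subgroup.closure (Set.range rt ∪ Bset 0) at hg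
  induction hg using Subgroup.closure_induction with
  | mem g hg =>
    rcases hg with ⟨a, rfl⟩ | ⟨e, f, hf, rfl⟩
    · exact ⟨[(true, a)], by rw [ev_cons, ev_nil, mul_one]; rfl⟩
    · have h1 : f = 1 := by
        funext i
        exact hf i (Nat.zero_le i)
      exact ⟨[(false, e)], by rw [ev_cons, ev_nil, mul_one, h1]; rfl⟩
  | one => exact ⟨[], rfl⟩
  | mul g h _ _ ihg ihh =>
    obtain ⟨w, rfl⟩ := ihg
    obtain ⟨w', rfl⟩ := ihh
    exact ⟨w ++ w', ev_append 0 w w'⟩
  | inv g _ ih =>
    obtain ⟨w, rfl⟩ := ih
    exact ⟨winv w, ev_winv 0 w⟩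

/-- the group is finitely generated -/
theorem fg_G : Group.FG G := by
  rw [Group.fg_iff]
  refine ⟨Set.range fun a : La => eG [a], ?_, Set.finite_range _⟩
  rw [eq_top_iff]
  intro g _
  obtain ⟨l, rfl⟩ := eG_surj g
  clear * -
  induction l with
  | nil => exact one_mem _
  | cons a l ih =>
    rw [eG_cons]
    exact mul_mem (Subgroup.subset_closure ⟨a, rfl⟩) ih

/-- subgroups of finite index are finitely generated -/
theorem exists_gens (H : Subgroup G) [H.FiniteIndex] :
    ∃ (r : ℕ) (s : Fin r → H), Subgroup.closure (Set.range s) = ⊤ := by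
  have h0 := fg_G
  have h1 : Group.FG H := Subgroup.fg_of_index_ne_zero H
  obtain ⟨S, hS, hf⟩ := Group.fg_iff.1 h1
  have := hf.to_subtype
  obtain ⟨n, ⟨φ⟩⟩ := Finite.exists_equiv_fin S
  refine ⟨n, fun i => (φ.symm i).1, ?_⟩
  rw [← hS]
  congr 1
  ext x
  constructor
  · rintro ⟨i, rfl⟩
    exact (φ.symm i).2
  · intro hx
    exact ⟨φ ⟨x, hx⟩, by simp⟩

/-- the word problem in subgroups -/
theorem wp {H : Subgroup G} {r : ℕ} (s : Fin r → H) : WordProblemDecidable s := by
  have h1 : ∀ p : Fin r × Bool, ∃ l : List La, eG l = ((if p.2 then s p.1 else (s p.1)⁻¹ : H) : G) :=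
    fun p => eG_surj _
  choose ψ hψ using h1
  have h2 : ∀ w : List (Fin r × Bool), eG (w.flatMap ψ) = ((wordValue s w : H) : G) := by
    intro w
    induction w with
    | nil => rfl
    | cons a w ih =>
      have h3 : eG ((a :: w).flatMap ψ) = eG (ψ a) * eG (w.flatMap ψ) := by
        ext1
        exact ev_append 0 _ _
      have h4 : wordValue s (a :: w) = (if a.2 then s a.1 else (s a.1)⁻¹) * wordValue s w := by
        simp only [wordValue, List.map_cons, List.prod_cons]
      rw [h3, ih, hψ, h4, Subgroup.coe_mul]
  have h4 : PrimrecPred fun w : List (Fin r × Bool) => ev 0 (w.flatMap ψ) = 1 :=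
    wp_primrec.comp (Primrec.list_flatMap Primrec.id
      ((Primrec.dom_finite ψ).comp₂ Primrec₂.right))
  have h5 : PrimrecPred fun w : List (Fin r × Bool) => wordValue s w = 1 := by
    refine h4.of_eq fun w => ?_
    constructor
    · intro h
      apply Subtype.ext
      rw [← h2]
      exact Subtype.ext h
    · intro h
      have h6 := h2 w
      rw [h] at h6
      exact congrArg Subtype.val h6
  obtain ⟨i, h6⟩ := h5
  exact ⟨i, h6.to_comp⟩

/-- the test elements of large number lie in `H`, and they are conjugate in `H` if and only if the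
program halts -/
theorem test (H : Subgroup G) [H.FiniteIndex] : ∃ n : ℕ, ∀ c : Nat.Partrec.Code,
    n ≤ Encodable.encode c →
    ∃ (h1 : eG (wd zeta (Encodable.encode c)) ∈ H)
      (h2 : eG (wd (tw zeta) (Encodable.encode c)) ∈ H),
      IsConj (⟨_, h1⟩ : H) ⟨_, h2⟩ ↔ Halts c := by
  obtain ⟨n, hn⟩ := finite_index (H := H)
  refine ⟨n, fun c hc => ?_⟩
  set k := Encodable.encode c with hk
  set v : W := List.replicate k 0 ++ [1] with hv
  have hvl : v.length = k + 1 := by simp [hv]
  have hT : ∀ e : A, T (k + 1) k e ∈ Del v.length := by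
    intro e
    rw [hvl]
    exact D_mem fun i hi => Pi.mulSingle_eq_of_ne (by omega) _
  have hmem : ∀ e : A, eG (wd e k) ∈ H := by
    intro e
    have h1 := hn v (by omega) ⟨_, hT e⟩
    have e1 : eG (wd e k) = G.dp v ⟨_, hT e⟩ := by
      ext1
      exact ev_wd e k
    rw [e1]
    exact h1
  refine ⟨hmem _, hmem _, ?_⟩
  have hcode : ∀ N : ℕ, (Nat.unpair N).1 = k →
      live N = (Nat.Partrec.Code.evaln N c 0).isNone := by
    intro N hN
    unfold live
    rw [hN, hk, Denumerable.ofNat_encode]
  constructor
  · intro h
    by_contra hd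
    have hl : ∀ N, (Nat.unpair N).1 = k → live N = true := by
      intro N hN
      rw [hcode N hN, Option.isNone_iff_eq_none, Option.eq_none_iff_forall_not_mem]
      intro x hx
      apply hd
      have := Nat.Partrec.Code.evaln_sound hx
      exact Part.dom_iff_mem.2 ⟨x, this⟩
    obtain ⟨g, hg⟩ := isConj_iff.1 h
    have h1 : g.1.1 * ev 0 (wd zeta k) * g.1.1⁻¹ = ev 0 (wd (tw zeta) k) :=
      congrArg (fun x : H => x.1.1) hg
    rw [ev_wd, ev_wd, mul_inv_eq_iff_eq_mul] at h1
    have hne : T (k + 1) k zeta ≠ 1 := by
      intro hc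
      rw [← map_one (T (k + 1) k)] at hc
      exact zeta_ne_one (T_injective hl hc)
    obtain ⟨t, ht, h2⟩ := conj_dpath hne g.1.2 h1
    obtain ⟨m, hm⟩ := Del_U ht
    rw [← hv, hvl] at hm
    exact no_conj hl zeta_ne_one zeta_nonconj m hm h2
  · intro hd
    obtain ⟨x, hx⟩ := Part.dom_iff_mem.1 hd
    obtain ⟨N0, hN0⟩ := Nat.Partrec.Code.evaln_complete.1 hx
    have hl : ∀ N, N0 ≤ N → (Nat.unpair N).1 = k → live N = false := by
      intro N hN hN2
      have h1 := Nat.Partrec.Code.evaln_mono hN hN0
      rw [hcode N hN2, Option.mem_def.1 h1]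
      rfl
    obtain ⟨h, hh, hc⟩ := conj_of_halt hl zeta N0 (k + 1) (by omega)
    rw [isConj_iff]
    have hh' : h ∈ Del v.length := by rw [hvl]; exact hh
    refine ⟨⟨G.dp v ⟨h, hh'⟩, hn v (by omega) _⟩, ?_⟩
    ext1
    ext1
    change dpath v h * ev 0 (wd zeta k) * (dpath v h)⁻¹ = ev 0 (wd (tw zeta) k)
    rw [ev_wd, ev_wd, ← hv, ← hc, map_mul, map_mul, map_inv]

theorem reduction (H : Subgroup G) [H.FiniteIndex] {r : ℕ} (s : Fin r → H)
    (hs : Subgroup.closure (Set.range s) = ⊤) : Halts ≤₀ Conjugate s := by
  obtain ⟨R, hR, hRs⟩ := rewriting s hs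
  obtain ⟨n, hn⟩ := test H
  obtain ⟨P, hP, hPn⟩ := padding n
  refine ⟨fun c => (R (wd zeta (Encodable.encode (P c))),
    R (wd (tw zeta) (Encodable.encode (P c)))), ?_, fun c => ?_⟩
  · have h1 : ∀ e : A, Primrec fun c : Nat.Partrec.Code => R (wd e (Encodable.encode (P c))) :=
      fun e => hR.comp ((primrec_wd e).comp (Primrec.encode.comp hP))
    exact (Primrec.pair (h1 zeta) (h1 (tw zeta))).to_comp
  · obtain ⟨h1, h2, h3⟩ := hn (P c) (hPn c).1
    have e1 : wordValue s (R (wd zeta (Encodable.encode (P c)))) = ⟨_, h1⟩ :=
      Subtype.ext (hRs _ h1)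
    have e2 : wordValue s (R (wd (tw zeta) (Encodable.encode (P c)))) = ⟨_, h2⟩ :=
      Subtype.ext (hRs _ h2)
    unfold Conjugate
    rw [e1, e2, h3]
    exact ((hPn c).2).symm

/-- **There is a just infinite branch group `G` such that every subgroup `H` of finite index (in
particular `G` itself) is finitely generated and has, with respect to every finite generating tuple,
decidable word problem and undecidable conjugacy problem; moreover the halting problem is many-one
reducible to the conjugacy problem of `H`.** -/
theorem result : ∃ (G : Type) (_ : Group G), IsBranchGroup G ∧ JustInfinite G ∧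
    ∀ H : Subgroup G, H.FiniteIndex →
      (∃ (r : ℕ) (s : Fin r → H), Subgroup.closure (Set.range s) = ⊤) ∧
      ∀ (r : ℕ) (s : Fin r → H), Subgroup.closure (Set.range s) = ⊤ →
        WordProblemDecidable s ∧ ¬ ComputablePred (Conjugate s) ∧ Halts ≤₀ Conjugate s := by
  refine ⟨G, inferInstance, isBranch, ⟨infinite_G, fun N hN hne => just_infinite hne⟩,
    fun H hH => ⟨exists_gens H, fun r s hs => ?_⟩⟩
  have h := reduction H s hs
  refine ⟨wp s, fun hc => ?_, h⟩
  exact ComputablePred.halting_problem 0 (ComputablePred.computable_of_manyOneReducible h hc)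

end Pool.Agent.Results.MP_9b3f3c_al.HereditarilyUnsolvable
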